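import Pool.Agent.N208.OU.Main
import Pool.Agent.N113.BT.Spin
import Pool.Agent.N113.BT.Main
import Pool.Agent.V8H77.DP.Core

set_option autoImplicit false
set_option linter.unusedSectionVars false
set_option linter.unusedVariables false

/-!
# The complex structure is in the real span of all full subalgebras, if the domain is visible on an ideal
-/

open Module Function TensorProduct Matrix

noncomputable section

namespace Pool.Agent.V8H91.OM

open Pool.Agent.Y102 Pool.Agent.W516.DR Pool.Agent.H204R3.GP Pool.Agent.W516.KC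
  Pool.Agent.H204R3.SP Pool.Agent.TH119.MX Pool.Agent.R917 Pool.Agent.N208.AM Pool.Agent.N208.AD
  Pool.Agent.N113.BT Pool.Agent.V8H77.DP

variable {g : ℕ} {A : AbVar g} {s n : ℕ} {r : Fin s → ℕ} {B : Fin n → Ten A r} {w : Fin s → ℤ}
  {P : Matrix (Fin n) (Fin n) ℂ} {N : Matrix (Fin n) (Fin n) ℝ}
  {K : Submodule ℂ (Module.End ℂ (ℂ ⊗[ℚ] A.H1))}

/-- The endomorphisms which vanish on the image of the projector. -/
def killE (e : Module.End ℂ (ℂ ⊗[ℚ] A.H1)) : Submodule ℂ (Module.End ℂ (ℂ ⊗[ℚ] A.H1)) :=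
  LinearMap.ker (LinearMap.mulLeft ℂ e)

theorem mem_killE {e x : Module.End ℂ (ℂ ⊗[ℚ] A.H1)} : x ∈ killE e ↔ e * x = 0 := by
  unfold killE
  rw [LinearMap.mem_ker, LinearMap.mulLeft_apply]

/-- Rigid parts give ideals. -/
theorem _root_.Pool.Agent.N113.BT.RigPart.toCov {e : Module.End ℂ (ℂ ⊗[ℚ] A.H1)}
    {S : Submodule ℂ (Module.End ℂ (ℂ ⊗[ℚ] A.H1))} (hr : RigPart A e S) : Cov A (killE e) where
  br := fun x hx X hX => by
    rw [mem_killE] at hx ⊢
    rw [mul_sub, ← mul_assoc, hx, zero_mul, ← mul_assoc, hr.comm _ (bc_mem (der_NA_le hX)),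
      mul_assoc, hx, mul_zero, sub_zero]
  cov := fun 𝔮 hq X hX => by
    obtain ⟨y, hy, h1⟩ := hr.der hq hX
    exact ⟨y, hy, by rw [mem_killE, mul_sub, h1, sub_self]⟩

/-- The derived part of the complex structure. -/
theorem N_memR (h : Mot w B P) {𝔮 : Submodule ℚ (Module.End ℚ A.H1)} (hq : A.Full 𝔮)
    (hr : Cov A K) (hN : RelR B AbVar.JJ N) {Nc Nd : Matrix (Fin n) (Fin n) ℝ}
    (hNc : Nc ∈ spR B (cenA A : Set (Module.End ℚ A.H1)))
    (hNd : Nd ∈ spR B (der A.NA : Set (Module.End ℚ A.H1))) (hNe : N = Nc + Nd)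
    (hα : ∀ p ∈ pC B (der A.NA), p.1 ∈ K → p.2 * cxm N = cxm N * p.2) :
    Nd ∈ spR B (der 𝔮 : Set (Module.End ℚ A.H1)) := by
  have hdd : der 𝔮 ≤ der A.NA := by
    unfold der
    exact Submodule.span_mono fun _ ⟨X, hX, Y, hY, e⟩ => ⟨X, hq.le hX, Y, hq.le hY, e⟩
  have hdN : der 𝔮 ≤ A.NA := fun Z hZ => der_NA_le (hdd hZ)
  have hdb : ∀ X ∈ der 𝔮, ∀ Y ∈ der 𝔮, X * Y - Y * X ∈ der 𝔮 := fun X hX Y hY =>
    Submodule.subset_span ⟨X, hq.der_le hX, Y, hq.der_le hY, rfl⟩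
  have hle : spR B (der A.NA : Set (Module.End ℚ A.H1)) ≤
      spR B (A.NA : Set (Module.End ℚ A.H1)) := spR_mono der_NA_le
  have hnm : nKK B K ≤ spR B (der A.NA : Set (Module.End ℚ A.H1)) := by
    rintro _ ⟨p, hp, -, rfl⟩
    exact (pC_re hp).1
  refine mem_of_sup (dat h hN hNc hNd hNe) (spR_mono hdd) (spR_br hdb) hnm ?_ ?_ ?_
  · rintro x hx z ⟨p, hp, h1, rfl⟩
    induction hx using Submodule.span_induction with
    | mem x hx =>
      obtain ⟨X, hX, M, hM, rfl⟩ := hx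
      refine ⟨_, pC_br h hX hM hp, ?_, ?_⟩
      · exact hr.br _ h1 X hX
      · change _ = reM (cq M * p.2 - p.2 * cq M)
        rw [reM_sub, ← cxm_rq, reM_mul, reM_mul', RLie.br_apply]
    | zero => rw [LinearMap.map_zero₂]; exact Submodule.zero_mem _
    | add a b _ _ ha hb => rw [LinearMap.map_add₂]; exact Submodule.add_mem _ ha hb
    | smul c a _ ha => rw [LinearMap.map_smul₂]; exact Submodule.smul_mem _ _ ha
  · intro z hz
    have h2 : RLie.br N z = 0 := by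
      obtain ⟨p, hp, h1, rfl⟩ := hz
      have h3 := congrArg reM (hα p hp h1)
      rw [reM_mul, reM_mul'] at h3
      rw [RLie.br_apply, h3, sub_self]
    rw [hNe, LinearMap.map_add₂, cenA_br h hNc (hle (hnm hz)), zero_add] at h2
    exact h2
  · rw [spR, Submodule.span_le]
    rintro _ ⟨X, hX, M, hM, rfl⟩
    obtain ⟨y, hy, h1⟩ := hr.cov 𝔮 hq X hX
    obtain ⟨y', hy'⟩ := exists_pC h hdN hy
    have h2 : ((X.baseChange ℂ : Module.End ℂ (ℂ ⊗[ℚ] A.H1)), cq M) ∈ pC B (der A.NA) :=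
      Submodule.subset_span ⟨X, hX, M, hM, rfl⟩
    have h3 := Submodule.sub_mem _ h2 (pC_mono hdd hy')
    have h4 : rq M = reM y' + (rq M - reM y') := by abel
    change rq M ∈ _
    rw [h4]
    refine Submodule.add_mem_sup (pC_re hy').1 ⟨_, h3, h1, ?_⟩
    change _ = reM (cq M - y')
    rw [reM_sub, reM_cq]

end Pool.Agent.V8H91.OM
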