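import Pool.Agent.N208.OU.Defs

set_option autoImplicit false

/-!
# 1-motives whose abelian part has a domain of type IV, an odd-dimensional ball or a product of discs: definitions

The definitions of `Pool.Agent.N208.OneM` (`Pool/Agent/N208/OU/Defs.lean`) are used: 1-motives and their
periods, the Mumford-Tate group, the Lie algebra of the Hodge group, factors.
-/

open Module Matrix Pool.Agent.Y102 Pool.Agent.R917.OM Pool.Agent.R917.BX Pool.Agent.W516.DR
  Pool.Agent.H204R3.GP Pool.Agent.N208.UR Pool.Agent.N208.OneM

noncomputable section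

namespace Pool.Agent.V8H91.OM

section Parts

variable {g : ℕ} (A : AbVar g)

/-- The algebra of the endomorphisms of `H_1(A, ℂ)`, as matrices for the basis of the lattice. -/
abbrev EndC (_ : AbVar g) : Type := Matrix (Fin (2 * g)) (Fin (2 * g)) ℂ

/-- The complex Lie algebra `𝔤 ⊗ ℂ`, acting on `H_1(A, ℂ)`. -/
def lieC : Submodule ℂ (EndC A) := Submodule.span ℂ {Y | ∃ X, InLie A X ∧ Y = toC A X}

/-! ### Spin parts -/

/-- **A spin part** `W` of `H_1(A, ℂ)`, with `k` colours: `P` is the inclusion of `W`, a space of
dimension `d`, and `Q` is a projection to `W`; the projector `P * Q` commutes with `𝔤`. The `E i` are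
anticommuting endomorphisms of `W` with square `1`; the generator `E i` has the colour `c i`, and
every colour which occurs occurs at least six times. The Lie algebra `𝔤` acts on `W` (by
`Q * toC A X * P`) by combinations of products of two different generators of the same colour and
scalars, and the associative algebra generated by `𝔤 ⊗ ℂ` contains elements which act on `W` like these
products. -/
structure SpinPart {N k d : ℕ} (E : Fin N → Matrix (Fin d) (Fin d) ℂ) (c : Fin N → Fin k)
    (P : Matrix (Fin (2 * g)) (Fin d) ℂ) (Q : Matrix (Fin d) (Fin (2 * g)) ℂ) : Prop where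
  /-- the relations of the Clifford algebra -/
  square : ∀ i, E i * E i = 1
  anti : ∀ i j, i ≠ j → E i * E j = -(E j * E i)
  /-- every colour which occurs occurs at least six times -/
  six : ∀ i, 6 ≤ (Finset.univ.filter fun j => c j = c i).card
  /-- `Q` is a projection to the summand -/
  proj : Q * P = 1
  /-- the image of `P * Q` and its complement are stable under `𝔤` -/
  stable : ∀ X, InLie A X → P * Q * toC A X = toC A X * (P * Q)
  /-- `𝔤` acts through the sum of the orthogonal Lie algebras and the scalars -/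
  acts : ∀ X, InLie A X → ∃ t : ℂ, Q * toC A X * P + t • (1 : Matrix (Fin d) (Fin d) ℂ) ∈
    Submodule.span ℂ {Y | ∃ i j, i ≠ j ∧ c i = c j ∧ Y = E i * E j}
  /-- the associative algebra generated by `𝔤 ⊗ ℂ` -/
  generates : ∀ i j, i ≠ j → c i = c j → ∃ Y ∈ Algebra.adjoin ℂ (lieC A : Set (EndC A)),
    E i * E j = Q * Y * P

/-! ### Middle exterior parts -/

section Mid

variable {N k n : ℕ}

/-- The canonical anticommutation relations for the creation operators `a σ i` and the annihilation
operators `b σ i`, where `σ` is the colour. -/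
def Car (a b : Fin k → Fin n → Matrix (Fin N) (Fin N) ℂ) : Prop :=
  (∀ σ i τ j, a σ i * a τ j = -(a τ j * a σ i)) ∧
  (∀ σ i τ j, b σ i * b τ j = -(b τ j * b σ i)) ∧
  ∀ σ i τ j, a σ i * b τ j + b τ j * a σ i = if σ = τ ∧ i = j then 1 else 0

/-- The action of the matrix `x` on the exterior algebra of the colour `σ`, in terms of creation and
annihilation operators. -/
def quant (a b : Fin k → Fin n → Matrix (Fin N) (Fin N) ℂ) (σ : Fin k)
    (x : Matrix (Fin n) (Fin n) ℂ) : Matrix (Fin N) (Fin N) ℂ :=
  ∑ i, ∑ j, x i j • (a σ i * b σ j)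

end Mid

/-- **A middle exterior part** of `H_1(A, ℂ)`, with `k` colours: the projector `P * Q` commutes with
`𝔤`; the map `Q` identifies its image `W` with the space of the vectors with `m` particles of each
colour (the number operator of the colour `σ` is `quant a b σ 1`), for some operators `a`, `b` which
satisfy the canonical anticommutation relations with `2 m` modes of each colour, and `P` is the inverse
of `Q` on this space. The Lie algebra `𝔤` acts on `W` by elements of the sum of the `k` Lie algebras
`sl(2m)` and scalars, and the associative algebra generated by `𝔤 ⊗ ℂ` contains elements which act on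
`W` like `a σ i * b σ j`. -/
structure MiddlePart {N k m : ℕ} (a b : Fin k → Fin (2 * m) → Matrix (Fin N) (Fin N) ℂ)
    (P : Matrix (Fin (2 * g)) (Fin N) ℂ) (Q : Matrix (Fin N) (Fin (2 * g)) ℂ) : Prop where
  /-- the canonical anticommutation relations -/
  car : Car a b
  /-- `P * Q` and `Q * P` are projectors -/
  left : P * Q * P = P
  right : Q * P * Q = Q
  /-- the image of `Q` is the space of the vectors with `m` particles of each colour -/
  middle : ∀ v, (∃ u, v = Q.mulVec u) ↔ ∀ σ, (quant a b σ 1).mulVec v = (m : ℂ) • v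
  /-- the image of `P * Q` and its complement are stable under `𝔤` -/
  stable : ∀ X, InLie A X → P * Q * toC A X = toC A X * (P * Q)
  /-- `𝔤` acts through the sum of the Lie algebras `sl(2m)` and the scalars -/
  acts : ∀ X, InLie A X → ∃ c : ℂ, P * Q * toC A X + c • (P * Q) ∈
    Submodule.span ℂ {Y | ∃ σ x, Matrix.trace x = 0 ∧ Y = P * quant a b σ x * Q}
  /-- the associative algebra generated by `𝔤 ⊗ ℂ` -/
  generates : ∀ σ i j, ∃ Y ∈ Algebra.adjoin ℂ (lieC A : Set (EndC A)),
    P * (a σ i * b σ j) * Q = P * Q * Y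

/-! ### Planes -/

/-- The matrix of the multiplication by `i` on `H_1(A, ℝ) = ℂ ^ g`, for the basis of the lattice. -/
def multI : EndC A := Matrix.of fun a b => ((A.lam.repr (Complex.I • A.lam b) a : ℝ) : ℂ)

/-- A plane in `H_1(A, ℂ)` which is stable and irreducible under `𝔤`, with a basis `u`. -/
structure Plane where
  /-- the basis, in the coordinates of `H_1(A, ℂ)` given by the basis of the lattice -/
  u : Fin 2 → Fin (2 * g) → ℂ
  indep : LinearIndependent ℂ u
  /-- the matrices of the action on the plane -/
  mat : EndQ A → Matrix (Fin 2) (Fin 2) ℂ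
  action : ∀ X, InLie A X → ∀ j, toC A X *ᵥ u j = ∑ i, mat X i j • u i
  irreducible : ∀ v ∈ Submodule.span ℂ (Set.range u),
    (∀ X, InLie A X → ∃ c : ℂ, toC A X *ᵥ v = c • v) → v = 0

variable {A}

/-- The planes are isomorphic as representations of `[𝔤, 𝔤]`. -/
def Isom (p q : Plane A) : Prop :=
  ∃ h : Matrix (Fin 2) (Fin 2) ℂ, h.det ≠ 0 ∧ ∀ X ∈ derivedLie A, h * q.mat X = p.mat X * h

/-- The elements of `𝔤` have the same trace on the two planes. -/
def SameTrace (p q : Plane A) : Prop := ∀ X, InLie A X → (p.mat X).trace = (q.mat X).trace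

/-- The Hodge structure is pure on the conjugate plane `σ(p)`: the multiplication by `i` on
`H_1(A, ℝ) = ℂ ^ g`, extended to `H_1(A, ℂ)`, acts on it as a scalar. -/
def Pure (σ : ℂ ≃+* ℂ) (p : Plane A) : Prop :=
  ∃ c : ℂ, ∀ j, multI A *ᵥ (fun i => σ (p.u j i)) = c • fun i => σ (p.u j i)

/-- **A family of planes**, such that two of them which are not isomorphic for `[𝔤, 𝔤]` are separated by the
Hodge structures of conjugate planes, or by their traces. -/
def IsFamily {ι : Type} (Q : ι → Plane A) : Prop :=
  ∀ a b, Isom (Q a) (Q b) ∨ (∃ σ : ℂ ≃+* ℂ, ¬ (Pure σ (Q a) ↔ Pure σ (Q b))) ∨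
    ∃ p q : Plane A, Isom p (Q a) ∧ Isom q (Q b) ∧ SameTrace p q

variable (A)

/-! ### Visible parts -/

/-- **Visible parts** of `H_1(A, ℂ)`: the condition `V x` says that the endomorphism `x` of `H_1(A, ℂ)`
acts by zero on the part. The part is a spin part, a middle exterior part or (the sum of) a finite
family of planes. -/
inductive Visible : (EndC A → Prop) → Prop
  | spin {N k d : ℕ} (E : Fin N → Matrix (Fin d) (Fin d) ℂ) (c : Fin N → Fin k)
      (P : Matrix (Fin (2 * g)) (Fin d) ℂ) (Q : Matrix (Fin d) (Fin (2 * g)) ℂ)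
      (h : SpinPart A E c P Q) : Visible (fun x => P * Q * x = 0)
  | middle {N k m : ℕ} (a b : Fin k → Fin (2 * m) → Matrix (Fin N) (Fin N) ℂ)
      (P : Matrix (Fin (2 * g)) (Fin N) ℂ) (Q : Matrix (Fin N) (Fin (2 * g)) ℂ)
      (h : MiddlePart A a b P Q) : Visible (fun x => P * Q * x = 0)
  | planes {ι : Type} (hι : Finite ι) (Q : ι → Plane A) (h : IsFamily Q) :
      Visible (fun x => ∀ a j, x *ᵥ (Q a).u j = 0)

/-! ### The centre -/

/-- `Φ` is a type: it contains exactly one of the elements `γ`, `c + γ`, for all `γ`. -/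
def IsType {Γ : Type} [AddCommGroup Γ] (c : Γ) (Φ : Finset Γ) : Prop := ∀ γ, γ ∈ Φ ↔ c + γ ∉ Φ

/-- `v` is a common eigenvector of the centre of `𝔤` in `H_1(A, ℂ)`, with the eigenvalues `χ X`. -/
def IsEigen (χ : EndQ A → ℂ) (v : Fin (2 * g) → ℂ) : Prop :=
  v ≠ 0 ∧ ∀ X, InCentre A X → toC A X *ᵥ v = χ X • v

/-- **The centre of `𝔤` is of abelian type.** -/
structure AbelianCentre {Γ : Type} [AddCommGroup Γ] [Fintype Γ] (c : Γ) (ε : Γ → EndQ A → ℂ) :
    Prop where
  /-- the element `c` (the complex conjugation) has order one or two -/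
  two : c + c = 0
  /-- the functions are odd -/
  odd : ∀ γ X, InCentre A X → ε (c + γ) X = - ε γ X
  /-- the translations by elements of `Γ` are given by automorphisms of `ℂ` -/
  galois : ∀ γ, ∃ σ : ℂ ≃+* ℂ, ∀ γ' X, InCentre A X → σ (ε γ' X) = ε (γ + γ') X
  /-- all types occur, on the part of the homology on which `[𝔤, 𝔤]` acts trivially -/
  types : ∀ Φ : Finset Γ, IsType c Φ → ∃ v, IsEigen A (fun X => ∑ γ ∈ Φ, ε γ X) v ∧
    ∀ Y ∈ derivedLie A, toC A Y *ᵥ v = 0
  /-- different types are different on the centre -/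
  distinct : ∀ Φ Φ' : Finset Γ, IsType c Φ → IsType c Φ' →
    (∀ X, InCentre A X → ∑ γ ∈ Φ, ε γ X = ∑ γ ∈ Φ', ε γ X) → Φ = Φ'
  /-- the eigenvalues of the common eigenvectors of the centre are combinations of the `ε γ` -/
  rational : ∀ χ v, IsEigen A χ v → ∃ q : Γ → ℚ, ∀ X, InCentre A X → χ X = ∑ γ, (q γ : ℂ) * ε γ X

/-- There is no factor of type IV: the centre of the algebra of the endomorphisms of `A` contains no
nonzero element which is skew-symmetric for the polarization. -/
def NoTypeIV : Prop :=
  ∀ P, IsEndo A P → (∀ Q, IsEndo A Q → Cm A P Q) →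
    (∀ u v, form A (P u) v + form A u (P v) = 0) → P = 0

end Parts

section Factor

variable {g g' : ℕ} (A : AbVar g) (C : AbVar g') (f : A.H1 →ₗ[ℚ] C.H1) (p : C.H1 →ₗ[ℚ] A.H1)

/-- **The condition on the domain.** The part of the Hodge group of `C` which acts trivially on the
visible part acts trivially on the Mumford-Tate domain of the factor `A` of `C`: if a complex combination
`∑ c_j X_j` of elements `X_j` of the derived algebra `[𝔤, 𝔤]` of the Lie algebra of the Hodge group of
`C` acts by zero on the visible part of `H_1(C, ℂ)`, then its restriction to `H_1(A, ℂ)` commutes with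
the multiplication by `i` on `H_1(A, ℝ) = ℂ ^ g`. -/
def DomainOn (V : EndC C → Prop) : Prop :=
  ∀ (k : ℕ) (c : Fin k → ℂ) (X : Fin k → EndQ C), (∀ j, X j ∈ derivedLie C) →
    V (∑ j, c j • toC C (X j)) →
      (∑ j, c j • toC A (restr A C f p (X j))) * multI A =
        multI A * ∑ j, c j • toC A (restr A C f p (X j))

/-- **The condition on the centre.** The factor `A` has no factor of type IV, or the centre `𝔷` of the Lie
algebra of the Hodge group of `C` acts trivially on `A`, or `𝔷` is rigid, or `𝔷` is of abelian type. -/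
def CentreCondition : Prop :=
  NoTypeIV A ∨ (∀ X, InCentre C X → restr A C f p X = 0) ∨ RigidCentre C ∨
    ∃ (Γ : Type) (_ : AddCommGroup Γ) (_ : Fintype Γ) (c : Γ) (ε : Γ → EndQ C → ℂ),
      AbelianCentre C c ε

end Factor

end Pool.Agent.V8H91.OM
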