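import Pool.Agent.V8H91.OM.Core

set_option autoImplicit false
set_option linter.unusedSectionVars false
set_option linter.unusedVariables false

/-!
# The complex structure of a factor, if the domain is visible on an ideal
-/

open Module Function TensorProduct Matrix

noncomputable section

namespace Pool.Agent.V8H91.OM

open Pool.Agent.Y102 Pool.Agent.W516.DR Pool.Agent.H204R3.GP Pool.Agent.W516.KC
  Pool.Agent.H204R3.SP Pool.Agent.TH119.MX Pool.Agent.R917 Pool.Agent.N208.AM Pool.Agent.N208.AD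
  Pool.Agent.N113.BT Pool.Agent.R917.DT Pool.Agent.N208.OU Pool.Agent.N208.CT Pool.Agent.V8H77.DP

variable {g g' : ℕ} {A : AbVar g} {C : AbVar g'} {f : A.H1 →ₗ[ℚ] C.H1} {p : C.H1 →ₗ[ℚ] A.H1}
  {K : Submodule ℂ (Module.End ℂ (ℂ ⊗[ℚ] C.H1))}

/-- The condition on the domain of the factor. -/
def DomK (K : Submodule ℂ (Module.End ℂ (ℂ ⊗[ℚ] C.H1))) (p : C.H1 →ₗ[ℚ] A.H1) : Prop :=
  ∀ N, RelR (hB p) (AbVar.JJ : (Fin g' → ℂ) →ₗ[ℝ] (Fin g' → ℂ)) N →
    ∀ q ∈ pC (hB p) (der C.NA), q.1 ∈ K → q.2 * cxm N = cxm N * q.2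

/-- The components of the complex structure, without a condition on the centre. -/
theorem ZZ_J' (h : Fac A C f p) {𝔮 : Submodule ℚ (Module.End ℚ C.H1)} (hq : C.Full 𝔮)
    (hr : Cov C K) (hα : DomK K p) (r : ℝ →ₗ[ℚ] ℚ) : A.cmpE r AbVar.JJ ∈ ZZ f p 𝔮 := by
  obtain ⟨N, hN, t, X, M, h1, h2⟩ := exists_J (mot h)
  have h4 : N ∈ spR (hB p) (C.NA : Set (Module.End ℚ C.H1)) := by
    rw [h2]
    exact Submodule.sum_mem _ fun k _ => Submodule.smul_mem _ _ (mem_spR (h1 k).1 (h1 k).2)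
  obtain ⟨Nc, hNc, Nd, hNd, hNe⟩ := exists_dec (mot h) h4
  have h5 := N_memR (mot h) hq hr hN hNc hNd hNe (hα N hN)
  rw [cenA_eq] at hNc
  obtain ⟨Yc, hYc, hYc'⟩ := exists_NR h (𝔥 := ZZ f p 𝔮) (𝔮 := C.CN)
    (fun X hX => Submodule.mem_sup_left (Submodule.mem_map_of_mem hX)) hNc
  obtain ⟨Yd, hYd, hYd'⟩ := exists_NR h (𝔥 := ZZ f p 𝔮) (𝔮 := der 𝔮)
    (fun X hX => Submodule.mem_sup_right (Submodule.mem_map_of_mem hX)) h5
  have h6 := hYc'.add hYd'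
  rw [← hNe] at h6
  have h7 := cmpE_mem (Submodule.add_mem _ hYc hYd) r
  rwa [h6.uniq (NR_JJ h hN)] at h7

/-- The complex structure of a factor, if the centre is rigid. -/
theorem detJ_of' (h : Fac A C f p) (hrig : Rigid C) (hr : Cov C K) (hα : DomK K p) :
    DetJ A := by
  intro 𝔥 hle hbr h0 hRC r
  have hF := h.qq_full hbr h0
  have hC := CN_le hF (h.qq_RC hRC) hrig
  have h1 := ZZ_J' h hF hr hα r
  have h2 : ZZ f p (Fac.qq f p 𝔥) ≤ 𝔥 := by
    refine sup_le ?_ ?_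
    · rintro _ ⟨X, hX, rfl⟩
      exact (hC hX).2
    · rintro _ ⟨X, hX, rfl⟩
      exact (hF.der_le hX).2
  exact h2 h1

end Pool.Agent.V8H91.OM
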