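import Pool.Agent.V8H91.OM.Fct
import Pool.Agent.V8H91.OM.Defs

set_option autoImplicit false

/-!
# 1-motives over factors of abelian varieties with a part on which the derived algebras agree
-/

open Module Matrix Pool.Agent.Y102 Pool.Agent.R917.OM Pool.Agent.R917.BX Pool.Agent.W516.DR
  Pool.Agent.H204R3.GP Pool.Agent.N208.UR Pool.Agent.N208.OneM

noncomputable section

namespace Pool.Agent.V8H91.OM

section Dom

variable {g g' : ℕ} {A : AbVar g} {C : AbVar g'} {f : A.H1 →ₗ[ℚ] C.H1} {p : C.H1 →ₗ[ℚ] A.H1}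

theorem NR_transpose {Y : Module.End ℝ (Fin g → ℂ)} {N : Matrix (Fin (2 * g)) (Fin (2 * g)) ℝ}
    (h : N208.OU.NR A Y N) (a b : Fin (2 * g)) : N b a = A.lam.repr (Y (A.lam b)) a := by
  rw [h, Finset.sum_eq_single b]
  · rw [A.lam.repr_self, Finsupp.single_eq_same, mul_one]
  · intro c _ hc
    rw [A.lam.repr_self, Finsupp.single_eq_of_ne hc, mul_zero]
  · intro h0
    exact absurd (Finset.mem_univ b) h0

theorem cxm_eq (hF : Pool.Agent.R917.DT.Fac A C f p) {N : Matrix (Fin (2 * g)) (Fin (2 * g)) ℝ}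
    (hN : N208.AM.RelR (N208.OU.hB p) (AbVar.JJ : (Fin g' → ℂ) →ₗ[ℝ] (Fin g' → ℂ)) N) :
    N208.AM.cxm N = (multI A)ᵀ := by
  have h1 := N208.OU.NR_JJ hF hN
  ext b a
  rw [N208.AM.cxm, Matrix.map_apply, NR_transpose h1, Matrix.transpose_apply, multI, Matrix.of_apply,
    AbVar.JJ_apply]

theorem cq_eq (hF : Pool.Agent.R917.DT.Fac A C f p) {X : Module.End ℚ C.H1}
    {M : Matrix (Fin (2 * g)) (Fin (2 * g)) ℚ} (hM : N208.AM.Rel (N208.OU.hB p) X M) :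
    N208.AM.cq M = (N208.OneM.toC A (restr A C f p X))ᵀ := by
  have h1 := N208.OU.NR_rs hF hM
  ext b a
  have h2 := NR_transpose h1 a b
  have h3 : A.lam b = A.per (A.bas b) := (A.per_bas b).symm
  rw [h3, A.ext_apply, A.repr_per, N208.AM.rq, Matrix.map_apply] at h2
  have h4 : M b a = (R917.DT.rs f p X) (A.bas b) a := by exact_mod_cast h2
  have hb : A.bas b = Pi.single b 1 := by
    unfold AbVar.bas
    rw [Pi.basisFun_apply]
  rw [N208.AM.cq, Matrix.map_apply, h4, Matrix.transpose_apply, N208.OneM.toC, Matrix.of_apply, hb]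
  rfl

/-- The pairs, in terms of matrices. -/
theorem pair_of {s n : ℕ} {r : Fin s → ℕ} {B : Fin n → N208.AM.Ten C r}
    {T : Submodule ℚ (Module.End ℚ C.H1)}
    {q : Module.End ℂ (TensorProduct ℚ ℂ C.H1) × Matrix (Fin n) (Fin n) ℂ}
    (hq : q ∈ N113.BT.pC B T) : ∃ x, matE (2 * g') x = q.1 ∧ (x, q.2) ∈
      Submodule.span ℂ {p : Matrix (Fin (2 * g')) (Fin (2 * g')) ℂ × Matrix (Fin n) (Fin n) ℂ |
        ∃ X ∈ T, ∃ M, N208.AM.Rel B X M ∧ p = (Y102.toC X, N208.AM.cq M)} := by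
  induction hq using Submodule.span_induction with
  | mem p hp =>
    obtain ⟨X, hX, M, hM, rfl⟩ := hp
    exact ⟨Y102.toC X, matE_toC X, Submodule.subset_span ⟨X, hX, M, hM, rfl⟩⟩
  | zero => exact ⟨0, map_zero _, Submodule.zero_mem _⟩
  | add p q _ _ hp hq =>
    obtain ⟨x, hx, hx'⟩ := hp
    obtain ⟨y, hy, hy'⟩ := hq
    exact ⟨x + y, by rw [map_add, hx, hy]; rfl, Submodule.add_mem _ hx' hy'⟩
  | smul c p _ hp =>
    obtain ⟨x, hx, hx'⟩ := hp
    exact ⟨c • x, by rw [map_smul, hx]; rfl, Submodule.smul_mem _ c hx'⟩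

theorem DomainOn.toDomK {V : Matrix (Fin (2 * g')) (Fin (2 * g')) ℂ → Prop}
    (hD : DomainOn A C f p V) (hF : Pool.Agent.R917.DT.Fac A C f p)
    {K : Submodule ℂ (Module.End ℂ (TensorProduct ℚ ℂ C.H1))}
    (hK : ∀ x, matE (2 * g') x ∈ K → V x) : DomK K p := by
  intro N hN q hq hqK
  obtain ⟨x, hx, hx'⟩ := pair_of hq
  rw [← hx] at hqK
  have h0 := hK x hqK
  obtain ⟨k, c, X, hX⟩ := Submodule.mem_span_set'.1 hx'
  choose Y hY M hM hYe using fun j => (X j).2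
  have h1 : x = ∑ j, c j • N208.OneM.toC C (Y j) := by
    have h4 := congrArg Prod.fst hX
    rw [Prod.fst_sum] at h4
    refine h4.symm.trans (Finset.sum_congr rfl fun j _ => ?_)
    rw [hYe j]
    rfl
  have h2 : q.2 = (∑ j, c j • N208.OneM.toC A (restr A C f p (Y j)))ᵀ := by
    have h4 := congrArg Prod.snd hX
    rw [Prod.snd_sum] at h4
    rw [Matrix.transpose_sum]
    refine h4.symm.trans (Finset.sum_congr rfl fun j _ => ?_)
    rw [hYe j, Matrix.transpose_smul, ← cq_eq hF (hM j)]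
    rfl
  have h3 := hD k c Y (fun j => ?_) (by rw [← h1]; exact h0)
  · rw [h2, cxm_eq hF hN, ← Matrix.transpose_mul, ← Matrix.transpose_mul, h3]
  · refine (Submodule.span_mono ?_) (hY j)
    rintro _ ⟨X, hX, Y, hY, rfl⟩
    exact ⟨X, hX, Y, hY, rfl⟩

end Dom

section Final

variable {g n s : ℕ} {A : AbVarG g} {u : Fin n → Fin g → ℂ} {v : Fin s → Fin g → ℂ}
  {ℓ : Fin n → Fin s → ℂ} {G : Subgroup (GL (Betti g n s) ℂ)}

variable {g' : ℕ} {C : AbVar g'} {f : A.toAbVar.H1 →ₗ[ℚ] C.H1} {p : C.H1 →ₗ[ℚ] A.toAbVar.H1}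
  {K : Submodule ℂ (Module.End ℂ (TensorProduct ℚ ℂ C.H1))}

theorem main_three' (hM : IsOneMotive A u v ℓ) (hG : IsAlgebraicSubgroup G)
    (hP : ContainsPeriods A u v ℓ G) (hF : IsFactor A.toAbVar C f p) (hr : V8H77.DP.Cov C K)
    (hα : DomK K p) (hR : N208.CT.Rigid C) : mumfordTate A u v ℓ ≤ G := by
  obtain ⟨T, hT, q, hq, hqT⟩ := hP
  rw [periodMatrix_eq] at hqT
  have hpt := ptM_of hG hT hq hqT
  obtain ⟨K₁, hK₁, hrat⟩ := exists_rat_mult A (pt (dat A u v ℓ)) (by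
    rintro (i | l)
    · exact Or.inl (hM.point i)
    · exact Or.inl (hM.dual l))
  have hdet := detJ_of' (hfac hF) hR hr hα
  obtain ⟨h1, h2⟩ := Pool.Agent.R917.DT.hodge_stab6 hpt
    ⟨hM.point, hM.neg, hM.sub, hM.log⟩ hrat hdet
  refine sInf_le ⟨hG, fun z hz => ?_⟩
  obtain ⟨x, hx, hxe⟩ := Pool.Agent.R917.exp_mem hpt.grp fun k =>
    ((h2 k).smul ((Complex.log z).re : ℂ)).add ((h1 k).smul ((Complex.log z).im : ℂ))
  exact ⟨x, hx, deligne_exp A hz hxe⟩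

theorem main_two' (hM : IsOneMotive A u v ℓ) (hG : IsAlgebraicSubgroup G)
    (hP : ContainsPeriods A u v ℓ G) (hF : IsFactor A.toAbVar C f p) (hr : V8H77.DP.Cov C K)
    (hα : DomK K p) {Z : Matrix (Betti g n s) (Betti g n s) ℚ}
    (hZ : Z ∈ derived (mtLie A u v ℓ)) (t : ℂ) :
    IsIn G (NormedSpace.exp (t • cplx Z)) := by
  obtain ⟨T, hT, q, hq, hqT⟩ := hP
  rw [periodMatrix_eq] at hqT
  have hpt := ptM_of hG hT hq hqT
  obtain ⟨K₁, hK₁, hrat⟩ := exists_rat_mult A (pt (dat A u v ℓ)) (by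
    rintro (i | l)
    · exact Or.inl (hM.point i)
    · exact Or.inl (hM.dual l))
  have hLg := gg_Lg hpt
  have hfc := hfac hF
  obtain ⟨𝔮, h𝔮⟩ : ∃ 𝔮, 𝔮 = Pool.Agent.R917.DT.Fac.qq f p (aa (gg A.toAbVar n s
    {M | ∃ x ∈ G, (x : Matrix (Betti g n s) (Betti g n s) ℂ) = M})) := ⟨_, rfl⟩
  have hfull : C.Full 𝔮 := by
    rw [h𝔮]
    exact hfc.qq_full (fun X hX Y hY => hLg.full.br X hX Y hY) (fun D lam => ⟨_, hLg.per D lam, rfl⟩)
  have hJ := ZZ_J' hfc hfull hr hα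
  have hbr : ∀ x ∈ N208.OU.ZZ f p 𝔮, ∀ y ∈ N208.OU.ZZ f p 𝔮,
      x * y - y * x ∈ (Pool.Agent.Y102.der 𝔮).map (Pool.Agent.R917.DT.rs f p) :=
    fun x hx y hy => N208.OU.ZZ_br hfc hfull hx hy
  have hle : (Pool.Agent.Y102.der 𝔮).map (Pool.Agent.R917.DT.rs f p) ≤ N208.OU.ZZ f p 𝔮 := le_sup_right
  have hle' : (Pool.Agent.Y102.der 𝔮).map (Pool.Agent.R917.DT.rs f p) ≤ aa (gg A.toAbVar n s
      {M | ∃ x ∈ G, (x : Matrix (Betti g n s) (Betti g n s) ℂ) = M}) := by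
    rintro _ ⟨X, hX, rfl⟩
    have h1 := hfull.der_le hX
    rw [h𝔮] at h1
    exact h1.2
  have hNA := N208.OU.ZZ_NA hfc hfull
  -- the Lie algebra of the Mumford-Tate group is in the normalizer
  have h1 : mtLie A u v ℓ ≤ N208.OU.LL A n s
      {M | ∃ x ∈ G, (x : Matrix (Betti g n s) (Betti g n s) ℂ) = M} (N208.OU.ZZ f p 𝔮) := by
    refine sInf_le ⟨fun X hX Y hY => N208.OU.LL_brr hNA hX hY fun x hx y hy =>
      hle (hbr x hx y hy), fun w => ⟨_, ?_, lie_deligne A w⟩⟩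
    have hc := fun lam => N208.OU.exists_LL hpt ⟨hM.point, hM.neg, hM.sub, hM.log⟩ hrat hJ lam
    refine Submodule.add_mem _ (Submodule.smul_mem _ _ ?_) (Submodule.smul_mem _ _ ?_)
    · refine N208.OU.mem_span_of_comp fun lam => ?_
      rw [N208.OU.comp_tW]
      exact (hc lam).2
    · refine N208.OU.mem_span_of_comp fun lam => ?_
      rw [N208.OU.comp_tJ]
      exact (hc lam).1
  obtain ⟨W, hW, hW1, hW2⟩ := Pool.Agent.R917.DT.weight hpt
  have h2 : Z ∈ N208.OU.gQ A n s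
      {M | ∃ x ∈ G, (x : Matrix (Betti g n s) (Betti g n s) ℂ) = M} := by
    unfold derived at hZ
    refine (Submodule.span_le.2 ?_) hZ
    rintro _ ⟨X, hX, Y, hY, rfl⟩
    exact N208.OU.LL_gQ hLg hW hW1 hW2 hle' (N208.OU.LL_brr hNA (h1 hX) (h1 hY) hbr)
  obtain ⟨L, hL, rfl⟩ := h2
  exact Pool.Agent.R917.exp_mem hpt.grp fun k => (hL.2 k).smul t

end Final

end Pool.Agent.V8H91.OM
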