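import Pool.Agent.V8H91.OM.Main

set_option autoImplicit false

/-!
# Visible parts are ideals which are covered by all full subalgebras; the centre
-/

open Module Matrix TensorProduct Pool.Agent.Y102 Pool.Agent.R917.OM Pool.Agent.R917.BX
  Pool.Agent.W516.DR Pool.Agent.H204R3.GP Pool.Agent.N208.UR Pool.Agent.N208.OneM

noncomputable section

namespace Pool.Agent.V8H91.OM

section Pl

variable {g : ℕ} {A : AbVar g}

variable (A) in
theorem inCentre_iff (X : Module.End ℚ A.H1) : InCentre A X ↔ X ∈ A.CN :=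
  ⟨fun h => ⟨h.1, fun Y hY => h.2 Y hY⟩, fun h => ⟨h.1, fun Y hY => h.2 Y hY⟩⟩

/-- the coordinates of complex vectors -/
def coords {k : ℕ} : (ℂ ⊗[ℚ] (Fin k → ℚ)) ≃ₗ[ℂ] (Fin k → ℂ) :=
  (Algebra.TensorProduct.basis ℂ (Pi.basisFun ℚ (Fin k))).equivFun

theorem coords_mat {k : ℕ} (X : Matrix (Fin k) (Fin k) ℂ) (v : ℂ ⊗[ℚ] (Fin k → ℚ)) :
    coords (matE k X v) = X *ᵥ coords v := by
  have h1 := LinearMap.toMatrix_mulVec_repr (Algebra.TensorProduct.basis ℂ (Pi.basisFun ℚ (Fin k)))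
    (Algebra.TensorProduct.basis ℂ (Pi.basisFun ℚ (Fin k))) (matE k X) v
  have h2 : LinearMap.toMatrix (Algebra.TensorProduct.basis ℂ (Pi.basisFun ℚ (Fin k)))
    (Algebra.TensorProduct.basis ℂ (Pi.basisFun ℚ (Fin k))) (matE k X) = X := by
    have h3 := (matE k).symm_apply_apply X
    exact h3
  rw [h2] at h1
  exact h1.symm

theorem coords_bc {k : ℕ} (X : Module.End ℚ (Fin k → ℚ)) (v : ℂ ⊗[ℚ] (Fin k → ℚ)) :
    coords (X.baseChange ℂ v) = (Matrix.of fun i j => (X (Pi.single j 1) i : ℂ)) *ᵥ coords v := by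
  rw [← matE_toC, coords_mat]
  rfl

theorem coords_symm_bc (X : Module.End ℚ A.H1) (v : Fin (2 * g) → ℂ) :
    X.baseChange ℂ (coords.symm v) = coords.symm (toC A X *ᵥ v) := by
  apply coords.injective
  rw [coords_bc, LinearEquiv.apply_symm_apply, LinearEquiv.apply_symm_apply]
  rfl

theorem coords_symm_sum (v : Fin (2 * g) → ℂ) :
    (coords.symm v : ℂ ⊗[ℚ] A.H1) = ∑ j, v j • V8H77.DP.cbas A j :=
  (Algebra.TensorProduct.basis ℂ (Pi.basisFun ℚ (Fin (2 * g)))).equivFun_symm_apply v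

theorem coords_mem (p : Plane A) {v : ℂ ⊗[ℚ] A.H1}
    (hv : v ∈ Submodule.span ℂ (Set.range fun j => (coords.symm (p.u j) : ℂ ⊗[ℚ] A.H1))) :
    coords v ∈ Submodule.span ℂ (Set.range p.u) := by
  induction hv using Submodule.span_induction with
  | mem v hv =>
    obtain ⟨j, rfl⟩ := hv
    simp only
    rw [LinearEquiv.apply_symm_apply]
    exact Submodule.subset_span ⟨j, rfl⟩
  | zero => rw [map_zero]; exact Submodule.zero_mem _
  | add a b _ _ ha hb => rw [map_add]; exact Submodule.add_mem _ ha hb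
  | smul c a _ ha => rw [map_smul]; exact Submodule.smul_mem _ _ ha

/-- the plane in the tensor product -/
def toPl (p : Plane A) : V8H77.DP.Pl A where
  u j := coords.symm (p.u j)
  li := p.indep.map' (coords (k := 2 * g)).symm.toLinearMap
    (LinearMap.ker_eq_bot.2 (coords (k := 2 * g)).symm.injective)
  st := fun X hX j => by
    rw [coords_symm_bc, p.action X hX j, map_sum]
    refine Submodule.sum_mem _ fun i _ => ?_
    rw [map_smul]
    exact Submodule.smul_mem _ _ (Submodule.subset_span ⟨i, rfl⟩)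
  irr := fun v hv h => by
    have h1 : coords v = 0 := by
      refine p.irreducible _ (coords_mem p hv) fun X hX => ?_
      obtain ⟨c, hc⟩ := h X hX
      refine ⟨c, ?_⟩
      have h2 := congrArg coords hc
      rw [coords_bc, map_smul] at h2
      exact h2
    exact (LinearEquiv.map_eq_zero_iff _).1 h1

theorem toPl_u (p : Plane A) (j : Fin 2) : (toPl p).u j = coords.symm (p.u j) := rfl

theorem toPl_R (p : Plane A) {X : Module.End ℚ A.H1} (hX : InLie A X) :
    (toPl p).R (X.baseChange ℂ) = p.mat X := by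
  ext i j
  have h1 := (toPl p).R_apply (X.baseChange ℂ) i j
  rw [h1, toPl_u, coords_symm_bc, p.action X hX j, map_sum]
  have h2 : ∑ i, coords.symm (p.mat X i j • p.u i) = ∑ i, p.mat X i j • (toPl p).u i :=
    Finset.sum_congr rfl fun i _ => by rw [map_smul, toPl_u]
  have h3 := (toPl p).co_comb (fun i => p.mat X i j)
  have h4 : ((toPl p).co (∑ i, coords.symm (p.mat X i j • p.u i))) = fun i => p.mat X i j := by
    rw [h2]
    exact h3
  exact congrFun h4 i

theorem derivedLie_eq : derivedLie A = Pool.Agent.Y102.der A.NA := rfl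

theorem inLie_of_der {X : Module.End ℚ A.H1} (hX : X ∈ derivedLie A) : InLie A X := by
  rw [derivedLie_eq] at hX
  exact N208.AM.der_NA_le hX

theorem Isom.toIso {p q : Plane A} (h : Isom p q) : (toPl p).Iso (toPl q) := by
  obtain ⟨k, hk, h⟩ := h
  refine ⟨k, hk, fun X hX => ?_⟩
  rw [← derivedLie_eq] at hX
  rw [toPl_R p (inLie_of_der hX), toPl_R q (inLie_of_der hX)]
  exact h X hX

theorem iso_iff {p q : Plane A} : (toPl p).Iso (toPl q) ↔ Isom p q := by
  refine ⟨fun ⟨k, hk, h⟩ => ⟨k, hk, fun X hX => ?_⟩, Isom.toIso⟩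
  have h1 := h X (by rw [← derivedLie_eq]; exact hX)
  rw [toPl_R p (inLie_of_der hX), toPl_R q (inLie_of_der hX)] at h1
  exact h1

theorem sg_coords (σ : ℂ ≃+* ℂ) (v : Fin (2 * g) → ℂ) :
    V8H77.DP.sg A σ.toRingHom (coords.symm v) = coords.symm fun i => σ (v i) := by
  rw [coords_symm_sum, coords_symm_sum, map_sum]
  refine Finset.sum_congr rfl fun j _ => ?_
  rw [V8H77.DP.sg_smul]
  congr 1
  unfold V8H77.DP.cbas
  rw [Algebra.TensorProduct.basis_apply]
  rw [V8H77.DP.sg_tmul, map_one]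

theorem JC_coords (v : Fin (2 * g) → ℂ) :
    V8H77.DP.JC A (coords.symm v) = coords.symm (multI A *ᵥ v) := by
  have hI : ∀ j, ∑ i, A.lam.repr (Complex.I • A.lam j) i • A.lam i = Complex.I • A.lam j :=
    fun j => A.lam.sum_repr _
  apply V8H77.DP.psi_ext
  · rw [(V8H77.DP.psi_JC _).1, coords_symm_sum, coords_symm_sum, (V8H77.DP.psi_sum _).1,
      (V8H77.DP.psi_sum _).1, Finset.smul_sum]
    have h1 : ∀ j, Complex.I • (v j).re • A.lam j =
        ∑ i, ((v j).re * A.lam.repr (Complex.I • A.lam j) i) • A.lam i := fun j => by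
      calc Complex.I • (v j).re • A.lam j = (v j).re • (Complex.I • A.lam j) := smul_comm _ _ _
        _ = (v j).re • ∑ i, A.lam.repr (Complex.I • A.lam j) i • A.lam i := by rw [hI]
        _ = _ := by
          rw [Finset.smul_sum]
          exact Finset.sum_congr rfl fun i _ => by rw [smul_smul]
    rw [Finset.sum_congr rfl fun j _ => h1 j, Finset.sum_comm]
    refine Finset.sum_congr rfl fun i _ => ?_
    rw [← Finset.sum_smul]
    congr 1
    simp only [multI, Matrix.mulVec, dotProduct, Matrix.of_apply, Complex.re_sum,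
      Complex.re_ofReal_mul]
    exact Finset.sum_congr rfl fun j _ => by rw [mul_comm]
  · rw [(V8H77.DP.psi_JC _).2, coords_symm_sum, coords_symm_sum, (V8H77.DP.psi_sum _).2,
      (V8H77.DP.psi_sum _).2, Finset.smul_sum]
    have h1 : ∀ j, Complex.I • (v j).im • A.lam j =
        ∑ i, ((v j).im * A.lam.repr (Complex.I • A.lam j) i) • A.lam i := fun j => by
      calc Complex.I • (v j).im • A.lam j = (v j).im • (Complex.I • A.lam j) := smul_comm _ _ _
        _ = (v j).im • ∑ i, A.lam.repr (Complex.I • A.lam j) i • A.lam i := by rw [hI]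
        _ = _ := by
          rw [Finset.smul_sum]
          exact Finset.sum_congr rfl fun i _ => by rw [smul_smul]
    rw [Finset.sum_congr rfl fun j _ => h1 j, Finset.sum_comm]
    refine Finset.sum_congr rfl fun i _ => ?_
    rw [← Finset.sum_smul]
    congr 1
    simp only [multI, Matrix.mulVec, dotProduct, Matrix.of_apply, Complex.im_sum,
      Complex.im_ofReal_mul]
    exact Finset.sum_congr rfl fun j _ => by rw [mul_comm]

theorem pure_iff (σ : ℂ ≃+* ℂ) (p : Plane A) : Pure σ p ↔ ((toPl p).conj σ).Scalar := by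
  constructor
  · rintro ⟨c, hc⟩
    refine ⟨c, fun j => ?_⟩
    rw [V8H77.DP.Pl.conj_u, toPl_u, sg_coords, JC_coords, hc j, map_smul]
  · rintro ⟨c, hc⟩
    refine ⟨c, fun j => ?_⟩
    have h1 := hc j
    rw [V8H77.DP.Pl.conj_u, toPl_u, sg_coords, JC_coords, ← map_smul] at h1
    exact coords.symm.injective h1

theorem IsFamily.toPair {ι : Type} {Q : ι → Plane A} (h : IsFamily Q) (a b : ι) :
    (toPl (Q a)).Iso (toPl (Q b)) ∨ (toPl (Q a)).Apart (toPl (Q b)) := by
  by_cases hab : (toPl (Q a)).Iso (toPl (Q b))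
  · exact Or.inl hab
  right
  rcases h a b with h1 | ⟨σ, h1⟩ | ⟨p, q, hp, hq, ht⟩
  · exact absurd h1.toIso hab
  · rw [pure_iff, pure_iff] at h1
    by_cases h2 : ((toPl (Q a)).conj σ).Scalar
    · exact V8H77.DP.Pl.apart_of_hodge σ h2 fun h3 => h1 ⟨fun _ => h3, fun _ => h2⟩
    · refine (V8H77.DP.Pl.apart_of_hodge σ ?_ h2).symm
      by_contra h3
      exact h1 ⟨fun h4 => absurd h4 h2, fun h4 => absurd h4 h3⟩
  · have hpq : ¬ (toPl p).Iso (toPl q) := fun h2 =>
      hab ((hp.toIso.symm.trans h2).trans hq.toIso)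
    refine V8H77.DP.Pl.Apart.of_iso hp.toIso hq.toIso (V8H77.DP.Pl.apart_of_trace hpq ?_)
    intro X hX
    rw [toPl_R p hX, toPl_R q hX]
    exact ht X hX

theorem AbelianCentre.toAbCen {Γ : Type} [AddCommGroup Γ] [Fintype Γ] {c : Γ}
    {ε : Γ → EndQ A → ℂ} (h : AbelianCentre A c ε) : V8H77.PC.AbCen A c ε where
  two := h.two
  odd := fun γ X hX => h.odd γ X ((inCentre_iff A X).2 hX)
  galois := fun γ => by
    obtain ⟨σ, hσ⟩ := h.galois γ
    exact ⟨σ.toRingHom, fun γ' X hX => hσ γ' X ((inCentre_iff A X).2 hX)⟩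
  types := fun Φ hΦ => by
    obtain ⟨v, ⟨hv0, hv⟩, hd⟩ := h.types Φ hΦ
    refine ⟨coords.symm v, ?_, fun Y hY Z hZ => ?_, fun X hX => ?_⟩
    · intro h0
      exact hv0 ((LinearEquiv.map_eq_zero_iff _).1 h0)
    · apply coords.injective
      rw [coords_bc, LinearEquiv.apply_symm_apply, map_zero]
      exact hd _ (Submodule.subset_span ⟨Y, hY, Z, hZ, rfl⟩)
    · apply coords.injective
      rw [coords_bc, LinearEquiv.apply_symm_apply, map_smul, LinearEquiv.apply_symm_apply]
      exact hv X ((inCentre_iff A X).2 hX)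
  distinct := fun Φ Φ' hΦ hΦ' he => h.distinct Φ Φ' hΦ hΦ' fun X hX => he X ((inCentre_iff A X).1 hX)
  rational := fun v χ hv hχ => by
    obtain ⟨q, hq⟩ := h.rational χ (coords v) ⟨fun h0 => hv ((LinearEquiv.map_eq_zero_iff _).1 h0),
      fun X hX => by
        have h1 := congrArg coords (hχ X ((inCentre_iff A X).1 hX))
        rw [coords_bc, map_smul] at h1
        exact h1⟩
    exact ⟨q, fun X hX => hq X ((inCentre_iff A X).2 hX)⟩


end Pl

section Vis

variable {g : ℕ} {A : AbVar g}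

theorem lieC_eq : lieC A = Submodule.span ℂ {Y | ∃ X ∈ A.NA, Y = Y102.toC X} := rfl

/-- **Visible parts are covered by all full subalgebras.** -/
theorem Visible.cov {V : EndC A → Prop} (h : Visible A V) :
    ∃ K : Submodule ℂ (Module.End ℂ (ℂ ⊗[ℚ] A.H1)), V8H77.DP.Cov A K ∧
      ∀ x, matE (2 * g) x ∈ K → V x := by
  cases h with
  | spin E c P Q h =>
    have hrig := N113.BT.rigPart_spin (A := A) (c := c) h.square h.anti h.six h.proj h.stable
      h.acts h.generates
    refine ⟨killE (matE (2 * g) (P * Q)), hrig.toCov, fun x hx => ?_⟩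
    rw [mem_killE, ← map_mul] at hx
    exact (matE (2 * g)).injective (hx.trans (map_zero _).symm)
  | middle a b P Q h =>
    have hrig := N113.BT.rigPart_of (A := A) h.car.1 h.car.2.1 h.car.2.2 h.left h.right
      h.middle h.stable h.acts h.generates
    refine ⟨killE (matE (2 * g) (P * Q)), hrig.toCov, fun x hx => ?_⟩
    rw [mem_killE, ← map_mul] at hx
    exact (matE (2 * g)).injective (hx.trans (map_zero _).symm)
  | planes hι Q h =>
    refine ⟨V8H77.DP.kills fun a => toPl (Q a), V8H77.DP.cov_kills _ h.toPair, fun x hx a j => ?_⟩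
    have h1 := hx a j
    rw [toPl_u] at h1
    have h2 := congrArg coords h1
    rw [coords_mat, LinearEquiv.apply_symm_apply, map_zero] at h2
    exact h2

end Vis

section Cen

variable {g g' : ℕ} {A : AbVar g} {C : AbVar g'} {f : A.H1 →ₗ[ℚ] C.H1} {p : C.H1 →ₗ[ℚ] A.H1}

/-- The restrictions of the elements of the centre are zero, if there is no factor of type IV. -/
theorem rs_CN_zero (h : Pool.Agent.R917.DT.Fac A C f p) (hA : NoTypeIV A) {X : EndQ C}
    (hX : X ∈ C.CN) : Pool.Agent.R917.DT.rs f p X = 0 := by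
  have hX2 : X ∈ C.ZA := C.CN_le_ZA hX
  have hXE : X ∈ C.EA := hX2.1
  have hXc : ∀ Q ∈ C.EA, X * Q = Q * X := hX2.2.2
  have hpf := h.pf
  obtain ⟨e, he⟩ := h.hf.algebraic
  obtain ⟨e', he'⟩ := h.hp.algebraic
  refine hA _ ?_ (fun Q hQ => ?_) (A.NA_skew (h.rs_NA hX.1))
  · obtain ⟨x, hx⟩ := C.mem_EA.1 hXE
    refine ⟨fun i l => ∑ j, ∑ k, e' i j * x j k * e k l, fun i w => ?_⟩
    rw [R917.DT.rs_apply, he']
    simp only [hx, he, map_sum, map_mul, Finset.mul_sum, Finset.sum_mul]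
    have h1 : ∀ l, ∑ j, ∑ k, algebraMap QBar ℂ (e' i j) * algebraMap QBar ℂ (x j k) *
        algebraMap QBar ℂ (e k l) * A.dR l w = ∑ j, ∑ k, algebraMap QBar ℂ (e' i j) *
          (algebraMap QBar ℂ (x j k) * (algebraMap QBar ℂ (e k l) * A.dR l w)) := fun l =>
      Finset.sum_congr rfl fun j _ => Finset.sum_congr rfl fun k _ => by ring
    rw [Finset.sum_congr rfl fun l _ => h1 l]
    exact (Finset.sum_congr rfl fun j _ => Finset.sum_comm).trans Finset.sum_comm
  · have hQE : (f.comp ((Q : A.H1 →ₗ[ℚ] A.H1).comp p) : Module.End ℚ C.H1) ∈ C.EA := by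
      rw [AbVar.mem_EA]
      obtain ⟨x, hx⟩ := hQ
      refine ⟨fun i l => ∑ j, ∑ k, e i j * x j k * e' k l, fun i w => ?_⟩
      rw [LinearMap.comp_apply, LinearMap.comp_apply, he]
      simp only [hx, he', map_sum, map_mul, Finset.mul_sum, Finset.sum_mul]
      have h1 : ∀ l, ∑ j, ∑ k, algebraMap QBar ℂ (e i j) * algebraMap QBar ℂ (x j k) *
          algebraMap QBar ℂ (e' k l) * C.dR l w = ∑ j, ∑ k, algebraMap QBar ℂ (e i j) *
            (algebraMap QBar ℂ (x j k) * (algebraMap QBar ℂ (e' k l) * C.dR l w)) := fun l =>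
        Finset.sum_congr rfl fun j _ => Finset.sum_congr rfl fun k _ => by ring
      rw [Finset.sum_congr rfl fun l _ => h1 l]
      exact (Finset.sum_congr rfl fun j _ => Finset.sum_comm).trans Finset.sum_comm
    have h1 := hXc _ hQE
    refine LinearMap.ext fun w => ?_
    have h2 := congrArg (fun T : Module.End ℚ C.H1 => p (T (f w))) h1
    change p (X (f (Q (p (f w))))) = p (f (Q (p (X (f w))))) at h2
    rw [hpf, hpf] at h2
    exact h2

/-- The complex structure of a factor, if the centre acts trivially. -/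
theorem detJ_of_triv (h : Pool.Agent.R917.DT.Fac A C f p)
    {K : Submodule ℂ (Module.End ℂ (ℂ ⊗[ℚ] C.H1))}
    (h0' : ∀ X ∈ C.CN, Pool.Agent.R917.DT.rs f p X = 0) (hr : V8H77.DP.Cov C K)
    (hα : DomK K p) : Pool.Agent.R917.DT.DetJ A := by
  intro 𝔥 hle hbr h0 hRC r
  have hF := h.qq_full hbr h0
  have h1 := ZZ_J' h hF hr hα r
  have h2 : N208.OU.ZZ f p (Pool.Agent.R917.DT.Fac.qq f p 𝔥) ≤ 𝔥 := by
    refine sup_le ?_ ?_
    · rintro _ ⟨X, hX, rfl⟩
      rw [h0' X hX]
      exact Submodule.zero_mem _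
    · rintro _ ⟨X, hX, rfl⟩
      exact (hF.der_le hX).2
  exact h2 h1

theorem CentreCondition.detJ (hc : CentreCondition A C f p)
    (h : Pool.Agent.R917.DT.Fac A C f p) {K : Submodule ℂ (Module.End ℂ (ℂ ⊗[ℚ] C.H1))}
    (hr : V8H77.DP.Cov C K) (hα : DomK K p) : Pool.Agent.R917.DT.DetJ A := by
  rcases hc with hc | hc | hc | ⟨Γ, _, _, c, ε, hc⟩
  · exact detJ_of_triv h (fun X hX => rs_CN_zero h hc hX) hr hα
  · exact detJ_of_triv h (fun X hX => hc X ((inCentre_iff C X).2 hX)) hr hα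
  · exact detJ_of' h (hc.toRigid C) hr hα
  · exact detJ_of' h hc.toAbCen.rigid hr hα

end Cen

section Final

variable {g n s : ℕ} {A : AbVarG g} {u : Fin n → Fin g → ℂ} {v : Fin s → Fin g → ℂ}
  {ℓ : Fin n → Fin s → ℂ} {G : Subgroup (GL (Betti g n s) ℂ)}

variable {g' : ℕ} {C : AbVar g'} {f : A.toAbVar.H1 →ₗ[ℚ] C.H1} {p : C.H1 →ₗ[ℚ] A.toAbVar.H1}

/-- The derived group. -/
theorem final_der (hM : IsOneMotive A u v ℓ) (hG : IsAlgebraicSubgroup G)
    (hP : ContainsPeriods A u v ℓ G) (hF : IsFactor A.toAbVar C f p) {V : EndC C → Prop}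
    (hV : Visible C V) (hD : DomainOn A.toAbVar C f p V)
    {Z : Matrix (Betti g n s) (Betti g n s) ℚ} (hZ : Z ∈ derived (mtLie A u v ℓ)) (t : ℂ) :
    IsIn G (NormedSpace.exp (t • cplx Z)) := by
  obtain ⟨K, hK, hKV⟩ := hV.cov
  exact main_two' hM hG hP hF hK (hD.toDomK (hfac hF) hKV) hZ t

/-- The Mumford-Tate group. -/
theorem final_mt (hM : IsOneMotive A u v ℓ) (hG : IsAlgebraicSubgroup G)
    (hP : ContainsPeriods A u v ℓ G) (hF : IsFactor A.toAbVar C f p) {V : EndC C → Prop}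
    (hV : Visible C V) (hD : DomainOn A.toAbVar C f p V)
    (hc : CentreCondition A.toAbVar C f p) : mumfordTate A u v ℓ ≤ G := by
  obtain ⟨K, hK, hKV⟩ := hV.cov
  obtain ⟨T, hT, q, hq, hqT⟩ := hP
  rw [periodMatrix_eq] at hqT
  have hpt := ptM_of hG hT hq hqT
  obtain ⟨K₁, hK₁, hrat⟩ := exists_rat_mult A (pt (dat A u v ℓ)) (by
    rintro (i | l)
    · exact Or.inl (hM.point i)
    · exact Or.inl (hM.dual l))
  have hdet := hc.detJ (hfac hF) hK (hD.toDomK (hfac hF) hKV)
  obtain ⟨h1, h2⟩ := Pool.Agent.R917.DT.hodge_stab6 hpt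
    ⟨hM.point, hM.neg, hM.sub, hM.log⟩ hrat hdet
  refine sInf_le ⟨hG, fun z hz => ?_⟩
  obtain ⟨x, hx, hxe⟩ := Pool.Agent.R917.exp_mem hpt.grp fun k =>
    ((h2 k).smul ((Complex.log z).re : ℂ)).add ((h1 k).smul ((Complex.log z).im : ℂ))
  exact ⟨x, hx, deligne_exp A hz hxe⟩

end Final

end Pool.Agent.V8H91.OM
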